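import Mathlib
import Pool.Agent.Lib.H44.Groth.Fam
import Pool.Agent.Lib.H44.Groth.Groth
import Pool.Agent.Lib.H44.Groth.NotFU
import Pool.Agent.Lib.H96D.S1
import Pool.Agent.Lib.H30C.Models
import Pool.Agent.Lib.H30C.ZDia

/-!
# MP_9ba03c_gt : the positive form of Q1 is not provable in ZFC

Under CH there are Grothendieck spaces `X`, `Y` and compact `K ⊆ C_p(X)`, `L ⊆ C_p(Y)` with `K × L`
not Fréchet–Urysohn.  Jensen's principle `◇`, which implies CH, holds in some model of ZFC.
-/

set_option autoImplicit false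

namespace Pool.Agent.Results.MP_9ba03c_gt.NotProvable

open Cardinal Pool.Agent.H44G Pool.Agent.H5Z Pool.Agent.H30C

theorem result :
    (∃ (M : Type 1) (E : M → M → Prop), ModelsZFC E ∧ DiaIn E) ∧
    (DiaIn (fun x y : ZFSet.{0} => x ∈ y) → (𝔠 : Cardinal.{0}) = ℵ₁) ∧
    ((𝔠 : Cardinal.{0}) = ℵ₁ →
      ∃ (X Y : Type) (_ : TopologicalSpace X) (_ : TopologicalSpace Y),
        T35Space X ∧ T35Space Y ∧ IsGrothendieck X ∧ IsGrothendieck Y ∧
        ∃ (K : Set (Cp X)) (L : Set (Cp Y)), IsCompact K ∧ IsCompact L ∧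
          ¬ FrechetUrysohnSpace (K × L)) := by
  refine ⟨exists_dia_model, fun h => Pool.Agent.H96D.ch_of_diamond (dia_of_in h), fun CH => ?_⟩
  obtain ⟨A, hA⟩ := exists_fam CH
  exact ⟨Sp (A false), Sp (A true), inferInstance, inferInstance, inferInstance, inferInstance,
    isGrothendieck_Sp (hA.inf false) (hA.conc false) (hA.task false),
    isGrothendieck_Sp (hA.inf true) (hA.conc true) (hA.task true), exists_compact_not_FU hA⟩

end Pool.Agent.Results.MP_9ba03c_gt.NotProvable
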